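import Pool.Agent.Helper9.TD.Typ
import Pool.Agent.Helper3.FJ.Met

/-!
# The metric of a typed complex of dimension two

The edges between chambers and panels have length 1, the angles of the triangles (chamber, panel,
residue) with a residue of label `m` are `π / 2 - π / (2 m)`, `π / 2` and `π / (2 m)`.
-/

set_option autoImplicit false

namespace Pool.Agent.Helper26.TD

open Relation Pool.Agent.Helper29.BA Pool.Agent.Helper29.PA Pool.Agent.Helper3.FJ
  Pool.Agent.Helper9.TD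

section

variable {S V : Type} (M : CoxeterMatrix S) {X : Cpx V} (τ : V → Finset S)

/-- The label of a type. -/
def lab (T : Finset S) : ℕ := (T ×ˢ T).sup fun p => M p.1 p.2

/-- The angle at a residue of label `m`. -/
noncomputable def th (m : ℕ) : ℝ := Real.pi / (2 * m)

/-- The lengths of the edges. -/
noncomputable def lg (u v : V) : ℝ :=
  if (τ u).card + (τ v).card = 1 then 1
  else if (τ u).card + (τ v).card = 3 then Real.cos (th (max (lab M (τ u)) (lab M (τ v)))) /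
    Real.sin (th (max (lab M (τ u)) (lab M (τ v))))
  else 1 / Real.sin (th (max (lab M (τ u)) (lab M (τ v))))

variable {M τ}

theorem lab_pair {T : Finset S} {x y : S} (hT : ∀ w, w ∈ T ↔ w = x ∨ w = y) (hxy : x ≠ y)
    (h0 : M x y ≠ 0) : lab M T = M x y ∧ 2 ≤ M x y := by
  have h2 : 2 ≤ M x y := by
    have := M.off_diagonal x y hxy
    omega
  refine ⟨le_antisymm (Finset.sup_le fun p hp => ?_) ?_, h2⟩
  · obtain ⟨a, b⟩ := p
    rw [Finset.mem_product] at hp
    have ha : a = x ∨ a = y := (hT _).1 hp.1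
    have hb : b = x ∨ b = y := (hT _).1 hp.2
    change M a b ≤ M x y
    rcases ha with rfl | rfl <;> rcases hb with rfl | rfl
    · rw [M.diagonal]
      omega
    · exact le_rfl
    · exact (M.symmetric _ _).le
    · rw [M.diagonal]
      omega
  · exact Finset.le_sup (f := fun p : S × S => M p.1 p.2)
      (b := (x, y)) (Finset.mem_product.2 ⟨(hT _).2 (Or.inl rfl), (hT _).2 (Or.inr rfl)⟩)

theorem lab_mono {T T' : Finset S} (h : T ⊆ T') : lab M T ≤ lab M T' :=
  Finset.sup_mono (Finset.product_subset_product h h)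

theorem lg_symm (u v : V) : lg M τ u v = lg M τ v u := by
  unfold lg
  rw [add_comm, max_comm]

theorem th_pos {m : ℕ} (hm : 2 ≤ m) : 0 < th m := by
  have : (0 : ℝ) < m := by exact_mod_cast (by omega : 0 < m)
  unfold th
  positivity

theorem th_le {m : ℕ} (hm : 2 ≤ m) : th m ≤ Real.pi / 4 := by
  have h : (2 : ℝ) ≤ m := by exact_mod_cast hm
  unfold th
  rw [div_le_div_iff₀ (by linarith) (by norm_num)]
  nlinarith [Real.pi_pos]

theorem sin_th {m : ℕ} (hm : 2 ≤ m) : 0 < Real.sin (th m) :=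
  Real.sin_pos_of_pos_of_lt_pi (th_pos hm) (by linarith [th_le hm, Real.pi_pos])

theorem cos_th {m : ℕ} (hm : 2 ≤ m) : 0 < Real.cos (th m) :=
  Real.cos_pos_of_mem_Ioo ⟨by linarith [th_pos hm, Real.pi_pos], by linarith [th_le hm, Real.pi_pos]⟩

/-- Types of residues are determined by two types of panels. -/
theorem pair_of_sub {T : Finset S} {x y : S} (hT : T.card = 2) (hx : x ∈ T) (hy : y ∈ T)
    (hxy : x ≠ y) : ∀ w, w ∈ T ↔ w = x ∨ w = y := by
  classical
  have : T = {x, y} := by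
    refine (Finset.eq_of_subset_of_card_le ?_ ?_).symm
    · intro z hz
      rw [Finset.mem_insert, Finset.mem_singleton] at hz
      rcases hz with rfl | rfl
      · exact hx
      · exact hy
    · rw [hT, Finset.card_pair hxy]
  intro w
  rw [this, Finset.mem_insert, Finset.mem_singleton]

theorem two_ne_zero_zmod (n : ℕ) : (2 : ZMod (n + 3)) ≠ 0 := by
  intro h
  have h1 : ((2 : ℕ) : ZMod (n + 3)) = 0 := by exact_mod_cast h
  rw [ZMod.natCast_eq_zero_iff] at h1
  have := Nat.le_of_dvd (by norm_num) h1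
  omega

theorem sides_ineq {s c : ℝ} (hs : 0 < s) (hc : 0 < c) (h : s ^ 2 + c ^ 2 = 1) :
    1 / s < 1 + c / s ∧ 1 < c / s + 1 / s ∧ c / s < 1 + 1 / s := by
  have h1 : s < 1 := by nlinarith
  have h2 : c < 1 := by nlinarith
  refine ⟨?_, ?_, ?_⟩
  · rw [← sub_pos]
    have : 1 + c / s - 1 / s = (s + c - 1) / s := by field_simp
    rw [this]
    exact div_pos (by nlinarith) hs
  · rw [← add_div, lt_div_iff₀ hs]
    linarith
  · have : 1 + 1 / s = (s + 1) / s := by field_simp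
    rw [this]
    exact div_lt_div_of_pos_right (by linarith) hs

/-- Alternating sequences of chambers are galleries. -/
theorem al_gallery {C : Type} {A : S → C → C → Prop} (c : ℕ → C) (z : ℕ → S)
    (hz : ∀ j, z (j + 2) = z j) (hA : ∀ j, A (z j) (c j) (c (j + 1)))
    (hne : ∀ j, c j ≠ c (j + 1)) : ∀ n j, Al A (z j) (z (j + 1)) n (c j) (c (j + n)) := by
  intro n
  induction n with
  | zero => exact fun j => Al.nil _ _ _
  | succ n ih =>
    intro j
    have h := ih (j + 1)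
    rw [hz] at h
    have h2 := Al.cons (hA j) (hne j) h
    rwa [show j + 1 + n = j + (n + 1) by omega] at h2

end

section

variable {S V : Type} {M : CoxeterMatrix S} {X : Cpx V} {τ : V → Finset S} (hT : TK M X τ)

include hT

theorem card_ne {u v : V} (h : X.adj u v) : (τ u).card ≠ (τ v).card := by
  rcases hT.sub u v h with h | h
  · exact (Finset.card_lt_card h).ne
  · exact (Finset.card_lt_card h).ne'

theorem exists_pair {v : V} (hv : (τ v).card = 2) :
    ∃ s t : S, s ≠ t ∧ (∀ w, w ∈ τ v ↔ w = s ∨ w = t) ∧ M s t ≠ 0 := by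
  classical
  obtain ⟨s, t, hst, h⟩ := Finset.card_eq_two.1 hv
  have h1 : ∀ w, w ∈ τ v ↔ w = s ∨ w = t := by
    intro w
    rw [h, Finset.mem_insert, Finset.mem_singleton]
  exact ⟨s, t, hst, h1, hT.sph v s ((h1 s).2 (Or.inl rfl)) t ((h1 t).2 (Or.inr rfl))⟩

theorem two_le_lab {v : V} (hv : (τ v).card = 2) : 2 ≤ lab M (τ v) := by
  obtain ⟨s, t, hst, h, h0⟩ := exists_pair hT hv
  obtain ⟨h1, h2⟩ := lab_pair h hst h0
  omega

theorem sub_of_adj {u v : V} (h : X.adj u v) (hk : (τ u).card < (τ v).card) : τ u ⊂ τ v := by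
  rcases hT.sub u v h with h | h
  · exact h
  · have := Finset.card_lt_card h
    omega

theorem adj_lab {u v : V} (h : X.adj u v) (hk : (τ u).card < (τ v).card) :
    max (lab M (τ u)) (lab M (τ v)) = lab M (τ v) :=
  max_eq_right (lab_mono (sub_of_adj hT h hk).subset)

omit hT in
theorem lg01 {u v : V} (hu : (τ u).card = 0) (hv : (τ v).card = 1) : lg M τ u v = 1 := by
  unfold lg
  rw [if_pos (by omega)]

theorem lg12 {u v : V} (h : X.adj u v) (hu : (τ u).card = 1) (hv : (τ v).card = 2) :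
    lg M τ u v = Real.cos (th (lab M (τ v))) / Real.sin (th (lab M (τ v))) := by
  unfold lg
  rw [if_neg (by omega), if_pos (by omega), adj_lab hT h (by omega)]

theorem lg02 {u v : V} (h : X.adj u v) (hu : (τ u).card = 0) (hv : (τ v).card = 2) :
    lg M τ u v = 1 / Real.sin (th (lab M (τ v))) := by
  unfold lg
  rw [if_neg (by omega), if_neg (by omega), adj_lab hT h (by omega)]

theorem tri_rk {u v w : V} (h : X.tri u v w) :
    (τ u).card ≠ (τ v).card ∧ (τ v).card ≠ (τ w).card ∧ (τ w).card ≠ (τ u).card ∧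
      (τ u).card ≤ 2 ∧ (τ v).card ≤ 2 ∧ (τ w).card ≤ 2 := by
  have h1 := X.tri_rot _ _ _ h
  have h2 := X.tri_rot _ _ _ h1
  exact ⟨card_ne hT (X.tri_adj _ _ _ h), card_ne hT (X.tri_adj _ _ _ h1),
    card_ne hT (X.tri_adj _ _ _ h2), hT.two _, hT.two _, hT.two _⟩

/-- The sides of a triangle. -/
theorem sides {c p r : V} (h : X.tri c p r) (hc : (τ c).card = 0) (hp : (τ p).card = 1)
    (hr : (τ r).card = 2) : lg M τ c p = 1 ∧
      lg M τ p r = Real.cos (th (lab M (τ r))) / Real.sin (th (lab M (τ r))) ∧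
      lg M τ c r = 1 / Real.sin (th (lab M (τ r))) := by
  have h1 := X.tri_rot _ _ _ h
  have h2 := X.tri_rot _ _ _ h1
  exact ⟨lg01 hc hp, lg12 hT (X.tri_adj _ _ _ h1) hp hr,
    lg02 hT (X.adj_symm _ _ (X.tri_adj _ _ _ h2)) hc hr⟩

theorem metric : X.Metric (lg M τ) := by
  have sc : ∀ x : ℝ, Real.sin x ^ 2 + Real.cos x ^ 2 = 1 := Real.sin_sq_add_cos_sq
  refine ⟨lg_symm, fun u v h => ?_, fun u v w h => ?_⟩
  · have key : ∀ u v : V, X.adj u v → (τ u).card < (τ v).card → 0 < lg M τ u v := by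
      intro u v h hk
      have hv := hT.two v
      by_cases h2 : (τ v).card = 2
      · have hm := two_le_lab hT h2
        by_cases h0 : (τ u).card = 0
        · rw [lg02 hT h h0 h2]
          exact div_pos one_pos (sin_th hm)
        · rw [lg12 hT h (by omega) h2]
          exact div_pos (cos_th hm) (sin_th hm)
      · rw [lg01 (by omega) (by omega)]
        exact one_pos
    rcases lt_or_gt_of_ne (card_ne hT h) with h1 | h1
    · exact key u v h h1
    · rw [lg_symm]
      exact key v u (X.adj_symm _ _ h) h1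
  · obtain ⟨a1, a2, a3, a4, a5, a6⟩ := tri_rk hT h
    have t1 := X.tri_rot _ _ _ h
    have t2 := X.tri_rot _ _ _ t1
    have t3 := X.tri_flip _ _ _ h
    -- the six cases
    have key : ∀ c p r : V, X.tri c p r → (τ c).card = 0 → (τ p).card = 1 → (τ r).card = 2 →
        lg M τ c r < lg M τ c p + lg M τ p r ∧ lg M τ c p < lg M τ p r + lg M τ c r ∧
          lg M τ p r < lg M τ c p + lg M τ c r := by
      intro c p r ht hc hp hr
      obtain ⟨e1, e2, e3⟩ := sides hT ht hc hp hr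
      rw [e1, e2, e3]
      have hm := two_le_lab hT hr
      exact sides_ineq (sin_th hm) (cos_th hm) (sc _)
    have e1 := lg_symm (M := M) (τ := τ) u v
    have e2 := lg_symm (M := M) (τ := τ) v w
    have e3 := lg_symm (M := M) (τ := τ) w u
    rcases (by omega : ((τ u).card = 0 ∧ (τ v).card = 1 ∧ (τ w).card = 2) ∨
        ((τ u).card = 0 ∧ (τ v).card = 2 ∧ (τ w).card = 1) ∨
        ((τ u).card = 1 ∧ (τ v).card = 0 ∧ (τ w).card = 2) ∨
        ((τ u).card = 1 ∧ (τ v).card = 2 ∧ (τ w).card = 0) ∨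
        ((τ u).card = 2 ∧ (τ v).card = 0 ∧ (τ w).card = 1) ∨
        ((τ u).card = 2 ∧ (τ v).card = 1 ∧ (τ w).card = 0)) with
      ⟨b1, b2, b3⟩ | ⟨b1, b2, b3⟩ | ⟨b1, b2, b3⟩ | ⟨b1, b2, b3⟩ | ⟨b1, b2, b3⟩ | ⟨b1, b2, b3⟩
    · have := key u v w h b1 b2 b3
      linarith
    · have := key u w v (X.tri_rot _ _ _ t3) b1 b3 b2
      linarith
    · have := key v u w t3 b2 b1 b3
      linarith
    · have := key w u v t2 b3 b1 b2
      linarith
    · have := key v w u t1 b2 b3 b1
      linarith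
    · have := key w v u (X.tri_flip _ _ _ t1) b3 b2 b1
      linarith

/-! ### The angles -/

omit hT in
theorem ang_symm (v u w : V) : Cpx.ang (lg M τ) v u w = Cpx.ang (lg M τ) v w u := by
  unfold Cpx.ang
  rw [lg_symm u w, add_comm (lg M τ v u ^ 2), mul_right_comm]

/-- The angle at a chamber. -/
theorem ang0 {c p r : V} (h : X.tri c p r) (hc : (τ c).card = 0) (hp : (τ p).card = 1)
    (hr : (τ r).card = 2) : Cpx.ang (lg M τ) c p r = Real.pi / 2 - th (lab M (τ r)) := by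
  obtain ⟨e1, e2, e3⟩ := sides hT h hc hp hr
  have hm := two_le_lab hT hr
  have hs := sin_th hm
  have hc := cos_th hm
  have sc := Real.sin_sq_add_cos_sq (th (lab M (τ r)))
  have t1 := th_pos hm
  have t2 := th_le hm
  unfold Cpx.ang
  rw [e1, e2, e3]
  have : (1 ^ 2 + (1 / Real.sin (th (lab M (τ r)))) ^ 2 -
      (Real.cos (th (lab M (τ r))) / Real.sin (th (lab M (τ r)))) ^ 2) /
      (2 * 1 * (1 / Real.sin (th (lab M (τ r))))) =
      Real.cos (Real.pi / 2 - th (lab M (τ r))) := by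
    rw [Real.cos_pi_div_two_sub]
    field_simp
    nlinarith
  rw [this, Real.arccos_cos (by linarith [Real.pi_pos]) (by linarith [Real.pi_pos])]

/-- The angle at a panel. -/
theorem ang1 {c p r : V} (h : X.tri c p r) (hc : (τ c).card = 0) (hp : (τ p).card = 1)
    (hr : (τ r).card = 2) : Cpx.ang (lg M τ) p c r = Real.pi / 2 := by
  obtain ⟨e1, e2, e3⟩ := sides hT h hc hp hr
  have hm := two_le_lab hT hr
  have hs := sin_th hm
  have sc := Real.sin_sq_add_cos_sq (th (lab M (τ r)))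
  unfold Cpx.ang
  rw [lg_symm p c, e1, e2, e3]
  have : (1 ^ 2 + (Real.cos (th (lab M (τ r))) / Real.sin (th (lab M (τ r)))) ^ 2 -
      (1 / Real.sin (th (lab M (τ r)))) ^ 2) = 0 := by
    field_simp
    linarith
  rw [this, zero_div, Real.arccos_zero]

/-- The angle at a residue. -/
theorem ang2 {c p r : V} (h : X.tri c p r) (hc : (τ c).card = 0) (hp : (τ p).card = 1)
    (hr : (τ r).card = 2) : Cpx.ang (lg M τ) r c p = th (lab M (τ r)) := by
  obtain ⟨e1, e2, e3⟩ := sides hT h hc hp hr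
  have hm := two_le_lab hT hr
  have hs := sin_th hm
  have hc := cos_th hm
  have sc := Real.sin_sq_add_cos_sq (th (lab M (τ r)))
  have t1 := th_pos hm
  have t2 := th_le hm
  unfold Cpx.ang
  rw [lg_symm r c, lg_symm r p, e1, e2, e3]
  have : ((1 / Real.sin (th (lab M (τ r)))) ^ 2 +
      (Real.cos (th (lab M (τ r))) / Real.sin (th (lab M (τ r)))) ^ 2 - 1 ^ 2) /
      (2 * (1 / Real.sin (th (lab M (τ r)))) *
        (Real.cos (th (lab M (τ r))) / Real.sin (th (lab M (τ r))))) =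
      Real.cos (th (lab M (τ r))) := by
    field_simp
    nlinarith
  rw [this, Real.arccos_cos t1.le (by linarith [Real.pi_pos])]

theorem ang_panel {v u w : V} (h : X.tri v u w) (hv : (τ v).card = 1) :
    Cpx.ang (lg M τ) v u w = Real.pi / 2 := by
  obtain ⟨b1, b2, b3, b4, b5, b6⟩ := tri_rk hT h
  by_cases hu : (τ u).card = 0
  · exact ang1 hT (X.tri_flip _ _ _ h) hu hv (by omega)
  · rw [ang_symm]
    have h1 := X.tri_rot _ _ _ (X.tri_rot _ _ _ h)
    exact ang1 hT h1 (by omega) hv (by omega)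

theorem ang_res {v u w : V} (h : X.tri v u w) (hv : (τ v).card = 2) :
    Cpx.ang (lg M τ) v u w = th (lab M (τ v)) := by
  obtain ⟨b1, b2, b3, b4, b5, b6⟩ := tri_rk hT h
  by_cases hu : (τ u).card = 0
  · exact ang2 hT (X.tri_rot _ _ _ h) hu (by omega) hv
  · rw [ang_symm]
    have h1 := X.tri_flip _ _ _ (X.tri_rot _ _ _ h)
    exact ang2 hT h1 (by omega) (by omega) hv

/-- The angle at a chamber, both orders. -/
theorem ang_ch {v p r : V} (h : X.tri v p r) (hv : (τ v).card = 0) (hp : (τ p).card = 1)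
    (hr : (τ r).card = 2) : Cpx.ang (lg M τ) v p r = Real.pi / 2 - th (lab M (τ r)) ∧
      Cpx.ang (lg M τ) v r p = Real.pi / 2 - th (lab M (τ r)) := by
  rw [ang_symm v r p]
  exact ⟨ang0 hT h hv hp hr, ang0 hT h hv hp hr⟩

theorem ang_ch_le {v u w : V} (h : X.tri v u w) (hv : (τ v).card = 0) :
    Real.pi / 4 ≤ Cpx.ang (lg M τ) v u w := by
  obtain ⟨b1, b2, b3, b4, b5, b6⟩ := tri_rk hT h
  by_cases hu : (τ u).card = 1
  · rw [(ang_ch hT h hv hu (by omega)).1]
    have := th_le (two_le_lab hT (v := w) (by omega))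
    linarith
  · have h1 : X.tri v w u := X.tri_flip _ _ _ (X.tri_rot _ _ _ (X.tri_rot _ _ _ h))
    rw [(ang_ch hT h1 hv (by omega) (by omega)).2]
    have := th_le (two_le_lab hT (v := u) (by omega))
    linarith

/-! ### Circuits -/

/-- The vertices of a circuit in a link alternate between two ranks, hence its length is even. -/
theorem even_of_circuit {v : V} {n : ℕ} (u : ZMod (n + 3) → V)
    (ht : ∀ i, X.tri v (u i) (u (i + 1))) : Even (n + 3) := by
  have h2 : ∀ j : ℕ, ((τ (u (j : ZMod (n + 3)))).card = (τ (u 0)).card ↔ Even j) := by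
    intro j
    induction j with
    | zero => simp
    | succ j ih =>
      have e1 := tri_rk hT (ht (j : ZMod (n + 3)))
      have e2 := tri_rk hT (ht 0)
      have e3 : (τ (u ((j + 1 : ℕ) : ZMod (n + 3)))).card =
          (τ (u ((j : ZMod (n + 3)) + 1))).card := by
        push_cast
        rfl
      rw [e3, Nat.even_add_one, ← ih]
      constructor
      · intro h h'
        exact e1.2.1 (h'.trans h.symm)
      · intro h
        obtain ⟨a1, a2, a3, a4, a5, a6⟩ := e1
        obtain ⟨b1, b2, b3, b4, b5, b6⟩ := e2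
        omega
  exact (h2 (n + 3)).1 (by rw [ZMod.natCast_self])

/-- A circuit in the link of a vertex which is not a panel can be shifted such that it starts with a
panel. -/
theorem shift_circuit {v : V} {n : ℕ} (u : ZMod (n + 3) → V)
    (hu : Function.Injective u) (ht : ∀ i, X.tri v (u i) (u (i + 1))) (hv : (τ v).card ≠ 1) :
    ∃ w : ZMod (n + 3) → V, Function.Injective w ∧ (∀ i, X.tri v (w i) (w (i + 1))) ∧
      (τ (w 0)).card = 1 ∧ ∑ i, Cpx.ang (lg M τ) v (w i) (w (i + 1)) =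
        ∑ i, Cpx.ang (lg M τ) v (u i) (u (i + 1)) := by
  by_cases h : (τ (u 0)).card = 1
  · exact ⟨u, hu, ht, h, rfl⟩
  · refine ⟨fun i => u (i + 1), fun i j hij => add_right_cancel (hu hij), fun i => ht _, ?_, ?_⟩
    · obtain ⟨b1, b2, b3, b4, b5, b6⟩ := tri_rk hT (ht 0)
      show (τ (u (0 + 1))).card = 1
      omega
    · exact Equiv.sum_comp (Equiv.addRight (1 : ZMod (n + 3)))
        fun i => Cpx.ang (lg M τ) v (u i) (u (i + 1))

/-- The panels and the other vertices of a circuit around a vertex which is not a panel. -/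
theorem circuit_rk {v : V} {n : ℕ} (w : ZMod (n + 3) → V)
    (ht : ∀ i, X.tri v (w i) (w (i + 1))) (h0 : (τ (w 0)).card = 1) (j : ℕ) :
    (τ (w ((2 * j : ℕ) : ZMod (n + 3)))).card = 1 ∧
      (τ (w ((2 * j + 1 : ℕ) : ZMod (n + 3)))).card = 2 - (τ v).card := by
  have key : ∀ i : ZMod (n + 3), (τ (w i)).card = 1 → (τ (w (i + 1))).card = 2 - (τ v).card ∧
      (τ (w (i + 1 + 1))).card = 1 := by
    intro i hi
    obtain ⟨b1, b2, b3, b4, b5, b6⟩ := tri_rk hT (ht i)
    obtain ⟨c1, c2, c3, c4, c5, c6⟩ := tri_rk hT (ht (i + 1))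
    omega
  have h1 : ∀ j : ℕ, (τ (w ((2 * j : ℕ) : ZMod (n + 3)))).card = 1 := by
    intro j
    induction j with
    | zero => simpa using h0
    | succ j ih =>
      have := (key _ ih).2
      have e : (((2 * (j + 1) : ℕ)) : ZMod (n + 3)) = ((2 * j : ℕ) : ZMod (n + 3)) + 1 + 1 := by
        push_cast
        ring
      rw [e]
      exact this
  refine ⟨h1 j, ?_⟩
  have := (key _ (h1 j)).1
  have e : (((2 * j + 1 : ℕ)) : ZMod (n + 3)) = ((2 * j : ℕ) : ZMod (n + 3)) + 1 := by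
    push_cast
    ring
  rw [e]
  exact this

theorem sub_of_tri {v p r : V} (h : X.tri v p r) (hp : (τ p).card = 1) (hr : (τ r).card = 2) :
    τ p ⊆ τ r :=
  (sub_of_adj hT (X.tri_adj _ _ _ (X.tri_rot _ _ _ h)) (by omega)).subset

/-- The link condition at the residues. -/
theorem link_res {v : V} {n : ℕ} (w : ZMod (n + 3) → V) (hw : Function.Injective w)
    (ht : ∀ i, X.tri v (w i) (w (i + 1))) (hv : (τ v).card = 2) (h0 : (τ (w 0)).card = 1) :
    4 * lab M (τ v) ≤ n + 3 := by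
  classical
  obtain ⟨q, hq⟩ := even_of_circuit hT w ht
  have hr := circuit_rk hT w ht h0
  have hcst : ∀ j : ℕ, (((2 * (j + 1) : ℕ)) : ZMod (n + 3)) =
      ((2 * j + 1 : ℕ) : ZMod (n + 3)) + 1 := by
    intro j
    push_cast
    ring
  have hcst' : ∀ j : ℕ, (((2 * j + 1 : ℕ)) : ZMod (n + 3)) =
      ((2 * j : ℕ) : ZMod (n + 3)) + 1 := by
    intro j
    push_cast
    ring
  have t1 : ∀ j : ℕ, X.tri v (w ((2 * j + 1 : ℕ) : ZMod (n + 3)))
      (w ((2 * (j + 1) : ℕ) : ZMod (n + 3))) := by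
    intro j
    rw [hcst]
    exact ht _
  have t2 : ∀ j : ℕ, X.tri v (w ((2 * j : ℕ) : ZMod (n + 3)))
      (w ((2 * j + 1 : ℕ) : ZMod (n + 3))) := by
    intro j
    rw [hcst']
    exact ht _
  -- the chambers
  let c : ℕ → {v : V // τ v = ∅} := fun j => ⟨w ((2 * j + 1 : ℕ) : ZMod (n + 3)), by
    rw [← Finset.card_eq_zero, (hr j).2]
    omega⟩
  -- the panel between two chambers
  have hp : ∀ j : ℕ, ∃ z : S, τ (w ((2 * (j + 1) : ℕ) : ZMod (n + 3))) = {z} :=
    fun j => Finset.card_eq_one.1 (hr (j + 1)).1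
  choose z hz using hp
  have a1 : ∀ j : ℕ, X.adj (w ((2 * j + 1 : ℕ) : ZMod (n + 3)))
      (w ((2 * (j + 1) : ℕ) : ZMod (n + 3))) := fun j =>
    X.tri_adj _ _ _ (X.tri_rot _ _ _ (t1 j))
  have a2 : ∀ j : ℕ, X.adj (w ((2 * j + 1 : ℕ) : ZMod (n + 3)))
      (w ((2 * j : ℕ) : ZMod (n + 3))) := fun j =>
    X.adj_symm _ _ (X.tri_adj _ _ _ (X.tri_rot _ _ _ (t2 j)))
  have hA : ∀ j, Pn X τ (z j) (c j) (c (j + 1)) := fun j => ⟨_, hz j, a1 j, a2 (j + 1)⟩
  have hne : ∀ j : ℕ, c j ≠ c (j + 1) := by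
    intro j h
    have h1 : w ((2 * j + 1 : ℕ) : ZMod (n + 3)) = w ((2 * (j + 1) + 1 : ℕ) : ZMod (n + 3)) :=
      congrArg Subtype.val h
    have h2 := hw h1
    push_cast at h2
    have h3 : (2 : ZMod (n + 3)) = 0 := by linear_combination -h2
    exact two_ne_zero_zmod n h3
  have hz1 : ∀ j : ℕ, z j ∈ τ v := by
    intro j
    have h2 : X.tri (w ((2 * (j + 1) + 1 : ℕ) : ZMod (n + 3)))
        (w ((2 * (j + 1) : ℕ) : ZMod (n + 3))) v :=
      X.tri_flip _ _ _ (X.tri_rot _ _ _ (t2 (j + 1)))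
    have h4 := sub_of_tri hT h2 (hr (j + 1)).1 hv
    rw [hz] at h4
    exact h4 (Finset.mem_singleton_self _)
  have hz2 : ∀ j : ℕ, z (j + 1) ≠ z j := by
    intro j h
    have h1 : w ((2 * (j + 1 + 1) : ℕ) : ZMod (n + 3)) = w ((2 * (j + 1) : ℕ) : ZMod (n + 3)) := by
      refine hT.un (w ((2 * (j + 1) + 1 : ℕ) : ZMod (n + 3))) _ _ (a1 (j + 1)) (a2 (j + 1)) ?_ ?_
      · exact sub_of_adj hT (a1 (j + 1)) (by rw [(hr (j + 1)).2, (hr (j + 1 + 1)).1]; omega)
      · rw [hz, hz, h]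
    have h3 := hw h1
    push_cast at h3
    have h4 : (2 : ZMod (n + 3)) = 0 := by linear_combination h3
    exact two_ne_zero_zmod n h4
  obtain ⟨x, y, hxy, hxyv, hm⟩ := exists_pair hT hv
  have hz3 : ∀ j, z (j + 2) = z j := by
    intro j
    have b1 := (hxyv _).1 (hz1 j)
    have b2 := (hxyv _).1 (hz1 (j + 1))
    have b3 := (hxyv _).1 (hz1 (j + 2))
    have b4 := hz2 j
    have b5 : z (j + 2) ≠ z (j + 1) := hz2 (j + 1)
    rcases b1 with b1 | b1 <;> rcases b2 with b2 | b2 <;> rcases b3 with b3 | b3 <;>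
      rw [b1, b2] at b4 <;> rw [b3, b2] at b5 <;> rw [b1, b3] <;>
      first | exact absurd rfl b4 | exact absurd rfl b5
  have hl : lab M (τ v) = M (z 0) (z 1) := by
    have h1 := pair_of_sub hv (hz1 0) (hz1 1) (hz2 0).symm
    exact (lab_pair h1 (hz2 0).symm (hT.sph v _ (hz1 0) _ (hz1 1))).1
  have hal := al_gallery c z hz3 hA hne q 0
  have hper : c (0 + q) = c 0 := by
    refine Subtype.ext ?_
    change w ((2 * (0 + q) + 1 : ℕ) : ZMod (n + 3)) = w ((2 * 0 + 1 : ℕ) : ZMod (n + 3))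
    congr 1
    have h2 : ((q + q : ℕ) : ZMod (n + 3)) = 0 := by
      rw [← hq]
      exact ZMod.natCast_self _
    push_cast at h2 ⊢
    linear_combination h2
  rw [hper] at hal
  have := hT.gir _ _ _ _ (hz2 0).symm (by omega) hal
  rw [hl]
  change 2 * M (z 0) (z 1) ≤ q at this
  omega

/-- The link condition at the chambers, circuits of length four and six. -/
theorem link_ch4 {v : V} (w : ZMod (1 + 3) → V) (hw : Function.Injective w)
    (ht : ∀ i, X.tri v (w i) (w (i + 1))) (hv : (τ v).card = 0) (h0 : (τ (w 0)).card = 1) :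
    False := by
  have t0 := ht 0
  have t1 := ht 1
  have t2 := ht 2
  have t3 := ht 3
  have e0 : (0 : ZMod (1 + 3)) + 1 = 1 := by decide
  have e1 : (1 : ZMod (1 + 3)) + 1 = 2 := by decide
  have e2 : (2 : ZMod (1 + 3)) + 1 = 3 := by decide
  have e3 : (3 : ZMod (1 + 3)) + 1 = 0 := by decide
  rw [e0] at t0
  rw [e1] at t1
  rw [e2] at t2
  rw [e3] at t3
  have n02 : w 0 ≠ w 2 := fun h => absurd (hw h) (by decide)
  have n13 : w 1 ≠ w 3 := fun h => absurd (hw h) (by decide)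
  obtain ⟨b1, b2, b3, b4, b5, b6⟩ := tri_rk hT t0
  obtain ⟨c1, c2, c3, c4, c5, c6⟩ := tri_rk hT t1
  obtain ⟨d1, d2, d3, d4, d5, d6⟩ := tri_rk hT t2
  have k1 : (τ (w 1)).card = 2 := by omega
  have k2 : (τ (w 2)).card = 1 := by omega
  have k3 : (τ (w 3)).card = 2 := by omega
  have a0 : X.adj v (w 0) := X.tri_adj _ _ _ t0
  have a1 : X.adj v (w 1) := X.tri_adj _ _ _ t1
  have a2 : X.adj v (w 2) := X.tri_adj _ _ _ t2
  have a3 : X.adj v (w 3) := X.tri_adj _ _ _ t3
  obtain ⟨x, hx⟩ := Finset.card_eq_one.1 h0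
  obtain ⟨y, hy⟩ := Finset.card_eq_one.1 k2
  have s01 := sub_of_tri hT t0 h0 k1
  have s21 := sub_of_tri hT (X.tri_flip _ _ _ (X.tri_rot _ _ _ (X.tri_rot _ _ _ t1))) k2 k1
  have s23 := sub_of_tri hT t2 k2 k3
  have s03 := sub_of_tri hT (X.tri_flip _ _ _ (X.tri_rot _ _ _ (X.tri_rot _ _ _ t3))) h0 k3
  rw [hx] at s01 s03
  rw [hy] at s21 s23
  rw [Finset.singleton_subset_iff] at s01 s21 s23 s03
  have hxy : x ≠ y := by
    rintro rfl
    exact n02 (hT.un v _ _ a0 a2 (sub_of_adj hT a0 (by omega)) (by rw [hx, hy]))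
  have p1 := pair_of_sub k1 s01 s21 hxy
  have p3 := pair_of_sub k3 s03 s23 hxy
  refine n13 (hT.un v _ _ a1 a3 (sub_of_adj hT a1 (by omega)) ?_)
  ext z
  rw [p1, p3]

theorem link_ch6 (hM : TwoDim M) {v : V} (w : ZMod (3 + 3) → V) (hw : Function.Injective w)
    (ht : ∀ i, X.tri v (w i) (w (i + 1))) (hv : (τ v).card = 0) (h0 : (τ (w 0)).card = 1) :
    2 * Real.pi ≤ ∑ i, Cpx.ang (lg M τ) v (w i) (w (i + 1)) := by
  have t0 := ht 0
  have t1 := ht 1
  have t2 := ht 2
  have t3 := ht 3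
  have t4 := ht 4
  have t5 := ht 5
  have e0 : (0 : ZMod (3 + 3)) + 1 = 1 := by decide
  have e1 : (1 : ZMod (3 + 3)) + 1 = 2 := by decide
  have e2 : (2 : ZMod (3 + 3)) + 1 = 3 := by decide
  have e3 : (3 : ZMod (3 + 3)) + 1 = 4 := by decide
  have e4 : (4 : ZMod (3 + 3)) + 1 = 5 := by decide
  have e5 : (5 : ZMod (3 + 3)) + 1 = 0 := by decide
  rw [e0] at t0
  rw [e1] at t1
  rw [e2] at t2
  rw [e3] at t3
  rw [e4] at t4
  rw [e5] at t5
  have n02 : w 0 ≠ w 2 := fun h => absurd (hw h) (by decide)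
  have n24 : w 2 ≠ w 4 := fun h => absurd (hw h) (by decide)
  have n40 : w 4 ≠ w 0 := fun h => absurd (hw h) (by decide)
  obtain ⟨b1, b2, b3, b4, b5, b6⟩ := tri_rk hT t0
  obtain ⟨c1, c2, c3, c4, c5, c6⟩ := tri_rk hT t1
  obtain ⟨d1, d2, d3, d4, d5, d6⟩ := tri_rk hT t2
  obtain ⟨f1, f2, f3, f4, f5, f6⟩ := tri_rk hT t3
  obtain ⟨g1, g2, g3, g4, g5, g6⟩ := tri_rk hT t4
  have k1 : (τ (w 1)).card = 2 := by omega
  have k2 : (τ (w 2)).card = 1 := by omega
  have k3 : (τ (w 3)).card = 2 := by omega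
  have k4 : (τ (w 4)).card = 1 := by omega
  have k5 : (τ (w 5)).card = 2 := by omega
  have a0 : X.adj v (w 0) := X.tri_adj _ _ _ t0
  have a2 : X.adj v (w 2) := X.tri_adj _ _ _ t2
  have a4 : X.adj v (w 4) := X.tri_adj _ _ _ t4
  have fl : ∀ a b : V, X.tri v a b → X.tri v b a := fun a b h =>
    X.tri_flip _ _ _ (X.tri_rot _ _ _ (X.tri_rot _ _ _ h))
  obtain ⟨x, hx⟩ := Finset.card_eq_one.1 h0
  obtain ⟨y, hy⟩ := Finset.card_eq_one.1 k2
  obtain ⟨z, hz⟩ := Finset.card_eq_one.1 k4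
  have s01 := sub_of_tri hT t0 h0 k1
  have s21 := sub_of_tri hT (fl _ _ t1) k2 k1
  have s23 := sub_of_tri hT t2 k2 k3
  have s43 := sub_of_tri hT (fl _ _ t3) k4 k3
  have s45 := sub_of_tri hT t4 k4 k5
  have s05 := sub_of_tri hT (fl _ _ t5) h0 k5
  rw [hx] at s01 s05
  rw [hy] at s21 s23
  rw [hz] at s43 s45
  rw [Finset.singleton_subset_iff] at s01 s21 s23 s43 s45 s05
  have hxy : x ≠ y := by
    rintro rfl
    exact n02 (hT.un v _ _ a0 a2 (sub_of_adj hT a0 (by omega)) (by rw [hx, hy]))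
  have hyz : y ≠ z := by
    rintro rfl
    exact n24 (hT.un v _ _ a2 a4 (sub_of_adj hT a2 (by omega)) (by rw [hy, hz]))
  have hxz : x ≠ z := by
    rintro rfl
    exact n40 (hT.un v _ _ a4 a0 (sub_of_adj hT a4 (by omega)) (by rw [hx, hz]))
  have m1 := hT.sph _ _ s01 _ s21
  have m3 := hT.sph _ _ s23 _ s43
  have m5 := hT.sph _ _ s05 _ s45
  obtain ⟨l1, o1⟩ := lab_pair (pair_of_sub k1 s01 s21 hxy) hxy m1
  obtain ⟨l3, o3⟩ := lab_pair (pair_of_sub k3 s23 s43 hyz) hyz m3
  obtain ⟨l5, o5⟩ := lab_pair (pair_of_sub k5 s05 s45 hxz) hxz m5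
  have hsum := hM x y z hxy hyz hxz m1 m3 m5
  have hsum' : (1 : ℝ) / M x y + 1 / M y z + 1 / M x z ≤ 1 := by
    have h := (Rat.cast_le (K := ℝ)).2 hsum
    push_cast at h
    exact h
  have q0 := (ang_ch hT t0 hv h0 k1).1
  have q1 := (ang_ch hT (fl _ _ t1) hv k2 k1).2
  have q2 := (ang_ch hT t2 hv k2 k3).1
  have q3 := (ang_ch hT (fl _ _ t3) hv k4 k3).2
  have q4 := (ang_ch hT t4 hv k4 k5).1
  have q5 := (ang_ch hT (fl _ _ t5) hv h0 k5).2
  have hs : ∑ i, Cpx.ang (lg M τ) v (w i) (w (i + 1)) =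
      Cpx.ang (lg M τ) v (w 0) (w 1) + Cpx.ang (lg M τ) v (w 1) (w 2) +
      Cpx.ang (lg M τ) v (w 2) (w 3) + Cpx.ang (lg M τ) v (w 3) (w 4) +
      Cpx.ang (lg M τ) v (w 4) (w 5) + Cpx.ang (lg M τ) v (w 5) (w 0) := by
    have := Fin.sum_univ_six (fun i : ZMod (3 + 3) => Cpx.ang (lg M τ) v (w i) (w (i + 1)))
    exact this
  rw [hs, q0, q1, q2, q3, q4, q5, l1, l3, l5]
  have hth : ∀ m : ℕ, th m = Real.pi / 2 * (1 / m) := by
    intro m
    unfold th
    rw [div_mul_div_comm, mul_one]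
  rw [hth, hth, hth]
  nlinarith [Real.pi_pos]

/-- The link condition. -/
theorem linkCond (hM : TwoDim M) : X.LinkCond (lg M τ) := by
  intro v n u hu ht
  have heven := even_of_circuit hT u ht
  have hn4 : 4 ≤ n + 3 := by
    obtain ⟨q, hq⟩ := heven
    omega
  have hcard : ∀ c : ℝ, ∑ _i : ZMod (n + 3), c = (n + 3 : ℕ) * c := by
    intro c
    rw [Finset.sum_const, Finset.card_univ, ZMod.card, nsmul_eq_mul]
  by_cases h1 : (τ v).card = 1
  · rw [Finset.sum_congr rfl fun i _ => ang_panel hT (ht i) h1, hcard]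
    have : (4 : ℝ) ≤ ((n + 3 : ℕ) : ℝ) := by exact_mod_cast hn4
    nlinarith [Real.pi_pos]
  obtain ⟨w, hw, hwt, hw0, hws⟩ := shift_circuit hT u hu ht h1
  rw [← hws]
  by_cases h2 : (τ v).card = 2
  · rw [Finset.sum_congr rfl fun i _ => ang_res hT (hwt i) h2, hcard]
    have h3 := link_res hT w hw hwt h2 hw0
    have h4 := two_le_lab hT h2
    have h5 : (4 : ℝ) * lab M (τ v) ≤ ((n + 3 : ℕ) : ℝ) := by exact_mod_cast h3
    have h6 : (2 : ℝ) ≤ lab M (τ v) := by exact_mod_cast h4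
    have h7 := th_pos h4
    calc 2 * Real.pi = 4 * lab M (τ v) * th (lab M (τ v)) := by
          unfold th
          field_simp
          ring
      _ ≤ _ := mul_le_mul_of_nonneg_right h5 h7.le
  · have h3 := hT.two v
    have hv : (τ v).card = 0 := by omega
    obtain ⟨q, hq⟩ := heven
    by_cases hq2 : q = 2
    · obtain rfl : n = 1 := by omega
      exact (link_ch4 hT w hw hwt hv hw0).elim
    by_cases hq3 : q = 3
    · obtain rfl : n = 3 := by omega
      exact link_ch6 hT hM w hw hwt hv hw0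
    have hn8 : 8 ≤ n + 3 := by omega
    refine le_trans ?_ (Finset.sum_le_sum fun i _ => ang_ch_le hT (hwt i) hv)
    rw [hcard]
    have : (8 : ℝ) ≤ ((n + 3 : ℕ) : ℝ) := by exact_mod_cast hn8
    nlinarith [Real.pi_pos]

omit hT in
theorem lg_smul {G : Type} [Group G] [MulAction G V] (hA : ActsT G X τ) (g : G) (u v : V) :
    lg M τ (g • u) (g • v) = lg M τ u v := by
  unfold lg
  rw [hA.inv, hA.inv]

/-- Groups acting with finite stabilizers on typed complexes of dimension two. -/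
theorem properT {C : ∀ (G : Type) [Group G], Prop} (hC : CatClass C) (hM : TwoDim M)
    (hX : X.SimplyConn) {G : Type} [Group G] [MulAction G V] (hA : ActsT G X τ)
    (hst : ∀ v : V, Finite (MulAction.stabilizer G v)) : C G :=
  Cpx.proper hC hX (metric hT) (linkCond hT hM) hA.acts (lg_smul hA) hst

end

end Pool.Agent.Helper26.TD
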