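import Pool.Agent.Helper26.LT.Sc
import Pool.Agent.Helper9.TD.Typ

/-!
# The coset complex of an Artin group as a typed complex

The set of types is `Option S`, where `none` is a dummy generator: the Coxeter matrix is extended
by the labels `4` and the dummy generator is mapped to `1`.
-/

set_option autoImplicit false

namespace Pool.Agent.Helper26.TD

open Relation Pool.Agent.Helper3.FJ Pool.Agent.Helper13.LT Pool.Agent.Helper26.LT
  Pool.Agent.Helper9.TD

variable {S : Type} (M : CoxeterMatrix S)

/-- The labels of the extended matrix. -/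
def ml : Option S → Option S → ℕ
  | some s, some t => M s t
  | none, none => 1
  | _, _ => 4

/-- The Coxeter matrix with a dummy generator, which has the label 4 with all the others. -/
def ex : CoxeterMatrix (Option S) where
  M := ml M
  isSymm := by
    ext x y
    cases x <;> cases y <;> first | rfl | exact M.symmetric _ _
  diagonal x := by
    cases x with
    | none => rfl
    | some s => exact M.diagonal s
  off_diagonal x y hxy := by
    cases x with
    | none =>
      cases y with
      | none => exact absurd rfl hxy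
      | some t => exact (by decide : 4 ≠ 1)
    | some s =>
      cases y with
      | none => exact (by decide : 4 ≠ 1)
      | some t => exact M.off_diagonal s t fun h => hxy (by rw [h])

theorem ex_some (s t : S) : ex M (some s) (some t) = M s t := rfl

theorem ex_none (s : S) : ex M none (some s) = 4 := rfl

theorem ex_none' (s : S) : ex M (some s) none = 4 := rfl

variable {M}

theorem ex_ne_zero {x y : Option S} (h : ∀ s t, some s = x → some t = y → M s t ≠ 0) :
    ex M x y ≠ 0 := by
  cases x with
  | none =>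
    cases y with
    | none => exact one_ne_zero
    | some t => exact (by decide : 4 ≠ 0)
  | some s =>
    cases y with
    | none => exact (by decide : 4 ≠ 0)
    | some t => exact h s t rfl rfl

theorem two_le_ex {x y : Option S} (hxy : x ≠ y) (h : ex M x y ≠ 0) : 2 ≤ ex M x y := by
  have := (ex M).off_diagonal x y hxy
  omega

/-- The extended matrix has dimension two. -/
theorem twoDim_ex (hM : TwoDim M) : TwoDim (ex M) := by
  intro x y z hxy hyz hxz h1 h2 h3
  have key : ∀ n : ℕ, 2 ≤ n → (1 : ℚ) / n ≤ 1 / 2 := by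
    intro n hn
    have : (2 : ℚ) ≤ n := by exact_mod_cast hn
    exact one_div_le_one_div_of_le (by norm_num) this
  have b1 := key _ (two_le_ex hxy h1)
  have b2 := key _ (two_le_ex hyz h2)
  have b3 := key _ (two_le_ex hxz h3)
  have h4 : ∀ s : S, (ex M none (some s) : ℚ) = 4 ∧ (ex M (some s) none : ℚ) = 4 := by
    intro s
    constructor
    · exact_mod_cast (rfl : ex M none (some s) = 4)
    · exact_mod_cast (rfl : ex M (some s) none = 4)
  cases x with
  | none =>
    cases y with
    | none => exact absurd rfl hxy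
    | some y =>
      cases z with
      | none => exact absurd rfl hxz
      | some z =>
        rw [(h4 y).1, (h4 z).1]
        linarith
  | some x =>
    cases y with
    | none =>
      cases z with
      | none => exact absurd rfl hyz
      | some z =>
        rw [(h4 x).2, (h4 z).1]
        linarith
    | some y =>
      cases z with
      | none =>
        rw [(h4 y).2, (h4 x).2]
        linarith
      | some z =>
        exact hM x y z (fun h => hxy (by rw [h])) (fun h => hyz (by rw [h]))
          (fun h => hxz (by rw [h])) h1 h2 h3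

variable (M) in
/-- The types of the vertices of the coset complex. -/
def tau (v : Vx M) : Finset (Option S) := (ty v).1

theorem tau_smul (g : ArtinGroup M) (v : Vx M) : tau M (g • v) = tau M v := by
  unfold tau
  rw [ty_smul]

theorem tau_ch {v : Vx M} (h : tau M v = ∅) : ∃ a, v = mk (ch M) a := by
  obtain ⟨T, a, e⟩ := exists_mk v
  have h1 : ty v = ch M := Subtype.ext h
  rw [e, ty_mk] at h1
  exact ⟨a, by rw [e, h1]⟩

theorem tau_pt {v : Vx M} {s : Option S} (h : tau M v = {s}) : ty v = pt M s := Subtype.ext h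

/-- Vertices above a given one. -/
theorem above {u v : Vx M} {a : ArtinGroup M} (hu : u = mk (ty u) a) (h : (cx M).adj u v)
    (hs : tau M u ⊂ tau M v) : v = mk (ty v) a := by
  obtain ⟨-, b, e1, e2⟩ := h
  have h1 : mk (ty u) a = mk (ty u) b := hu.symm.trans e1
  rw [mk_eq_of_le hs.subset h1]
  exact e2

theorem adj_ch_iff {a : ArtinGroup M} {p : Vx M} (h : (cx M).adj (mk (ch M) a) p) :
    p = mk (ty p) a := by
  obtain ⟨-, b, e1, e2⟩ := h
  rw [ty_mk, mk_ch] at e1
  rw [e1]
  exact e2

/-- Alternating products of powers. -/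
def sy {G : Type} [Group G] : G → G → List ℤ → G
  | _, _, [] => 1
  | x, y, a :: l => x ^ a * sy y x l

/-- Two chambers in a panel. -/
theorem pn_mk {s : Option S} {c d : {v : Vx M // tau M v = ∅}} {a b : ArtinGroup M}
    (hc : c.1 = mk (ch M) a) (hd : d.1 = mk (ch M) b) (h : Pn (cx M) (tau M) s c d) :
    a⁻¹ * b ∈ Par M (pt M s) := by
  obtain ⟨p, hp, h1, h2⟩ := h
  rw [hc] at h1
  rw [hd] at h2
  have e1 := adj_ch_iff h1
  have e2 := adj_ch_iff h2
  rw [tau_pt hp] at e1 e2
  exact (mk_eq.1 (e1.symm.trans e2)).2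

/-- Galleries are given by alternating products. -/
theorem al_sy {s t : S} {n : ℕ} {c d : {v : Vx M // tau M v = ∅}}
    (h : Al (Pn (cx M) (tau M)) (some s) (some t) n c d) {a b : ArtinGroup M}
    (hc : c.1 = mk (ch M) a) (hd : d.1 = mk (ch M) b) :
    ∃ l : List ℤ, l.length = n ∧ (∀ z ∈ l, z ≠ 0) ∧ b = a * sy (gen M s) (gen M t) l := by
  obtain ⟨x, hx⟩ : ∃ x, x = some s := ⟨_, rfl⟩
  obtain ⟨y, hy⟩ : ∃ y, y = some t := ⟨_, rfl⟩
  rw [← hx, ← hy] at h
  induction h generalizing s t a with
  | nil x y c =>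
    refine ⟨[], rfl, by simp, ?_⟩
    rw [hc, mk_ch] at hd
    rw [sy, mul_one, hd]
  | @cons x y n c d e h1 h2 h3 ih =>
    obtain ⟨a', ha'⟩ := tau_ch d.2
    obtain ⟨l, g1, g2, g3⟩ := ih ha' hd hy hx
    have h4 := pn_mk hc ha' h1
    rw [hx, Par_some, Subgroup.mem_zpowers_iff] at h4
    obtain ⟨k, hk⟩ := h4
    refine ⟨k :: l, by rw [List.length_cons, g1], ?_, ?_⟩
    · intro z hz
      rcases List.mem_cons.1 hz with rfl | hz
      · rintro rfl
        rw [zpow_zero] at hk
        exact h2 (Subtype.ext (by rw [hc, ha', inv_mul_eq_one.1 hk.symm]))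
      · exact g2 z hz
    · rw [sy, hk, g3]
      group

/-- There are no galleries with a dummy panel. -/
theorem al_none {x y : Option S} {n : ℕ} {c d : {v : Vx M // tau M v = ∅}}
    (h : Al (Pn (cx M) (tau M)) x y n c d) (hx : x = none) : n = 0 := by
  cases h with
  | nil => rfl
  | cons h1 h2 h3 =>
    exfalso
    obtain ⟨a, ha⟩ := tau_ch c.2
    rename_i m e
    obtain ⟨b, hb⟩ := tau_ch e.2
    have h4 := pn_mk ha hb h1
    rw [hx, Par_none, Subgroup.mem_bot] at h4
    exact h2 (Subtype.ext (by rw [ha, hb, inv_mul_eq_one.1 h4]))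

theorem gir (hI : ∀ s t, s ≠ t → M s t ≠ 0 → ∀ l : List ℤ, l ≠ [] → l.length < 2 * M s t →
      (∀ z ∈ l, z ≠ 0) → sy (gen M s) (gen M t) l ≠ 1) :
    Gir (ex M) (Pn (cx M) (tau M)) := by
  intro x y n c hxy hn h
  by_contra hlt
  push Not at hlt
  cases x with
  | none => exact absurd (al_none h rfl) (by omega)
  | some s =>
    cases y with
    | none =>
      cases h with
      | nil => omega
      | cons h1 h2 h3 =>
        have h4 := al_none h3 rfl
        subst h4
        cases h3
        exact h2 rfl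
    | some t =>
      obtain ⟨a, ha⟩ := tau_ch c.2
      obtain ⟨l, g1, g2, g3⟩ := al_sy h ha ha
      have hlt' : n < 2 * M s t := hlt
      refine hI s t (fun h => hxy (by rw [h])) (by omega) l ?_ (by omega) g2 (mul_eq_left.1 g3.symm)
      rintro rfl
      rw [List.length_nil] at g1
      omega

theorem tk (hI : ∀ s t, s ≠ t → M s t ≠ 0 → ∀ l : List ℤ, l ≠ [] → l.length < 2 * M s t →
      (∀ z ∈ l, z ≠ 0) → sy (gen M s) (gen M t) l ≠ 1) : TK (ex M) (cx M) (tau M) where
  two v := (ty v).2.1
  sph v s hs t ht := ex_ne_zero fun x y hx hy => (ty v).2.2 x y (hx ▸ hs) (hy ▸ ht)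
  sub u v h := h.1
  ch v hv := by
    obtain ⟨T, a, rfl⟩ := exists_mk v
    refine ⟨mk (ch M) a, rfl, Or.inl ?_, a, rfl, rfl⟩
    rw [ty_mk, ty_mk]
    exact Finset.ssubset_iff_subset_ne.2 ⟨Finset.empty_subset _, fun h => hv h.symm⟩
  up c J hc hJ hJ2 hJ3 := by
    obtain ⟨a, ha⟩ := tau_ch hc
    refine ⟨mk ⟨J, hJ2, fun s t hs ht => ?_⟩ a, ?_, rfl⟩
    · exact hJ3 _ hs _ ht
    · rw [ha]
      refine ⟨Or.inl ?_, a, rfl, rfl⟩
      rw [ty_mk, ty_mk]
      exact Finset.ssubset_iff_subset_ne.2 ⟨Finset.empty_subset _, fun h => hJ.ne_empty h.symm⟩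
  un u v v' h h' hs he := by
    obtain ⟨-, a, e1, e2⟩ := h
    have e3 := above e1 h' (he ▸ hs)
    have e4 : ty v = ty v' := Subtype.ext he
    rw [e2, e3, e4]
  tri u v w h h' hs hs' := by
    obtain ⟨hc, a, e1, e2⟩ := h
    exact ⟨⟨hc, h'.1, Or.inr (hs.trans hs')⟩, a, e1, e2, above e2 h' hs'⟩
  flag c p r hc h h' hs := by
    obtain ⟨a, ha⟩ := tau_ch hc
    have e0 : c = mk (ty c) a := by
      rw [ha]
      rfl
    rw [ha] at h h'
    refine ⟨⟨?_, Or.inl hs, ?_⟩, a, e0, adj_ch_iff h, adj_ch_iff h'⟩
    · rw [ha]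
      exact h.1
    · rw [ha]
      exact h'.1.symm
  gir := gir hI

theorem actsT : ActsT (ArtinGroup M) (cx M) (tau M) where
  acts := acts
  inv := tau_smul
  free g c hc h := by
    obtain ⟨a, ha⟩ := tau_ch hc
    rw [ha, smul_mk, mk_ch] at h
    exact mul_eq_right.1 h

end Pool.Agent.Helper26.TD
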